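import Pool.Agent.helper41.HFE.Spec

/-!
# Project HFE (MP_3221a1_ag), row VAL: assembly of the value on `T`
-/

set_option autoImplicit false

open Polynomial Module Pool.Agent.HFN

namespace Pool.Agent.HFE

noncomputable section

theorem VAL_chi (i j : ℕ) : chi i j 1 1 = i + j + 1 := by
  unfold chi
  rw [Nat.add_sub_cancel, Nat.add_sub_cancel]
  have h : (i + 1) * (j + 1) = i * j + (i + j + 1) := by ring
  rw [h]
  omega

theorem VAL : VAL_stmt := by
  intro hAB hNUT hROU hROL hCOL hC11 hTRM h h' x y M v hx hy hcol hrow hM hv i j hT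
  obtain ⟨hCU, hCL⟩ := hCOL
  obtain ⟨hC1, hC2, hC3⟩ := hC11
  obtain ⟨t1, t2, t3, t4, α, β, t5⟩ := hTRM h h' x y M hx hy hcol hrow (by omega)
  obtain ⟨n1, n2, n3, n4, n5⟩ := hNUT M.card i j hM hT
  obtain ⟨q1, _, q3⟩ := hAB (Pool.Agent.helper29.JZ.ZZ x y M) i j
  rw [t1] at q3
  apply le_antisymm
  · obtain ⟨f, hf, hCD, hab, hval⟩ := q3 hT.1 hT.2.1 n1
    have hCD' := hCD
    obtain ⟨c1, c2, _⟩ := hCD
    rcases n5 _ _ hCD' hab with h0 | h0 | ⟨h0, h1⟩
    · have h2 := hROU (Pool.Agent.helper29.JZ.ZZ x y M) f i j hf h0 (by omega)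
      rw [h0] at hval
      rw [t2] at h2
      refine le_trans ?_ ((le_max_left _ _).trans (le_max_left _ _))
      omega
    · have h2 := hCU (Pool.Agent.helper29.JZ.ZZ x y M) f i j hf h0 (by omega)
      rw [h0] at hval
      rw [t3] at h2
      refine le_trans ?_ ((le_max_right _ _).trans (le_max_left _ _))
      omega
    · rw [h0, h1, VAL_chi] at hval
      by_cases hirr : Irreducible f
      · have hI : I11 f := ⟨hirr, h0, h1⟩
        have h2 := hC2 (Pool.Agent.helper29.JZ.ZZ x y M) f hI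
        have h3 := hv.1 f hI
        refine le_trans ?_ ((le_max_right _ _).trans (le_max_right _ _))
        omega
      · obtain ⟨α', β', h2⟩ := hC1 (Pool.Agent.helper29.JZ.ZZ x y M) f h0 h1 hirr
        have h3 := t4 α' β'
        refine le_trans ?_ ((le_max_left _ _).trans (le_max_right _ _))
        omega
  · refine max_le (max_le ?_ ?_) (max_le ?_ ?_)
    · obtain ⟨f, hf, h0, _, h2⟩ := hROL (Pool.Agent.helper29.JZ.ZZ x y M) i j (by rw [t1]; exact n3)
      have h3 := q1 f hf
      rw [h0] at h3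
      rw [t2] at h2
      omega
    · obtain ⟨f, hf, h0, _, h2⟩ := hCL (Pool.Agent.helper29.JZ.ZZ x y M) i j (by rw [t1]; exact n4)
      have h3 := q1 f hf
      rw [h0] at h3
      rw [t3] at h2
      omega
    · obtain ⟨f, hf, h0, h1, h2⟩ := hC3 (Pool.Agent.helper29.JZ.ZZ x y M) α β
      have h3 := q1 f hf
      rw [h0, h1, VAL_chi] at h3
      rw [t5] at h2
      omega
    · obtain ⟨f, hI, h2⟩ := hv.2
      have h3 := q1 f hI.1.ne_zero
      rw [hI.2.1, hI.2.2, VAL_chi] at h3
      have h4 := hC2 (Pool.Agent.helper29.JZ.ZZ x y M) f hI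
      omega

end

end Pool.Agent.HFE
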